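import Pool.Agent.H78.S.Targets

/-!
# MP_9d0bb7_lc, board sgt_modules, row CFI
-/

set_option autoImplicit false

namespace Pool.Agent.H69.S

open Set Pool.Agent.H77.BC Pool.Agent.H78.S
open scoped Pointwise

theorem pf_CFI : T_CFI := by
  intro M U Γ _ _ _ H L A τ hH hτ hL hLA hidx hnorm hmap hquasi
  have hone : τ 1 ∈ L := by
    have h := hquasi 1 (one_mem H) 1 (one_mem H)
    rw [mul_one, mul_inv_rev, mul_assoc, inv_mul_cancel, mul_one] at h
    exact L.inv_mem_iff.1 h
  let K : Subgroup Γ :=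
    { carrier := {h | h ∈ H ∧ τ h ∈ L}
      one_mem' := ⟨one_mem H, hone⟩
      mul_mem' := by
        intro a b ha hb
        refine ⟨H.mul_mem ha.1 hb.1, ?_⟩
        have h := L.mul_mem (L.mul_mem ha.2 hb.2) (hquasi a ha.1 b hb.1)
        rwa [mul_inv_cancel_left] at h
      inv_mem' := by
        intro a ha
        refine ⟨H.inv_mem ha.1, ?_⟩
        have h := hquasi a ha.1 a⁻¹ (H.inv_mem ha.1)
        rw [mul_inv_cancel] at h
        -- (τ a * τ a⁻¹)⁻¹ * τ 1 ∈ L
        have h2 := L.mul_mem h (L.inv_mem hone)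
        rw [mul_inv_cancel_right] at h2
        have h3 := L.inv_mem_iff.1 h2
        have h4 := L.mul_mem (L.inv_mem ha.2) h3
        rwa [inv_mul_cancel_left] at h4 }
  have hKdef : U.D (K : Set Γ) := D_inter hH.1 (DFn_preim hτ hL)
  have hKH : K ≤ H := fun h hh => hh.1
  have hfin : Finite (A ⧸ L.subgroupOf A) := by
    haveI : (L.subgroupOf A).FiniteIndex := ⟨hidx⟩
    exact Subgroup.finite_quotient_of_finiteIndex
  let F : H → A ⧸ L.subgroupOf A := fun h => QuotientGroup.mk ⟨τ h, hmap h h.2⟩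
  have hF : ∀ g h : H, F g = F h → (g : Γ)⁻¹ * h ∈ K := by
    intro g h hgh
    have h1 : (τ g)⁻¹ * τ h ∈ L := by
      have h0 := QuotientGroup.eq.1 hgh
      exact Subgroup.mem_subgroupOf.1 h0
    refine ⟨H.mul_mem (H.inv_mem g.2) h.2, ?_⟩
    have h2 := hquasi g g.2 ((g : Γ)⁻¹ * h) (H.mul_mem (H.inv_mem g.2) h.2)
    rw [mul_inv_cancel_left, mul_inv_rev, mul_assoc] at h2
    have h3 := L.mul_mem h2 (L.inv_mem h1)
    rw [mul_inv_cancel_right] at h3
    exact L.inv_mem_iff.1 h3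
  have hfinK : Finite (H ⧸ K.subgroupOf H) := by
    refine Finite.of_injective (fun q : H ⧸ K.subgroupOf H => F q.out) ?_
    intro q q' hqq
    have h1 := hF _ _ hqq
    rw [← QuotientGroup.out_eq' q, ← QuotientGroup.out_eq' q']
    exact QuotientGroup.eq.2 (Subgroup.mem_subgroupOf.2 h1)
  have hidxK : K.relIndex H ≠ 0 := by
    change (K.subgroupOf H).index ≠ 0
    exact (Subgroup.finiteIndex_of_finite_quotient (H := K.subgroupOf H)).index_ne_zero
  have hR := (l_GRA U H K hH.1 hKdef hKH).1 hidxK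
  have hKeq := hH.2 K hKH hKdef hR
  intro h hh
  rw [← hKeq] at hh
  exact hh.2

end Pool.Agent.H69.S
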