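import Pool.Agent.H78.S.Targets

/-!
# MP_9d0bb7_lc, board sgt_modules, row PHA
-/

set_option autoImplicit false

namespace Pool.Agent.H69.S

open Set Pool.Agent.H77.BC Pool.Agent.H78.S
open scoped Pointwise

/-- finitely many cosets of subgroups of infinite index do not cover a group -/
theorem pha_avoid {Γ ι : Type} [Group Γ] (κ : Subgroup Γ) (s : Finset ι) (B : ι → Subgroup Γ)
    (t0 : Γ) (h : ∀ m ∈ s, (B m).relIndex κ = 0) : ∃ k ∈ κ, ∀ m ∈ s, t0 * k ∉ B m := by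
  classical
  by_contra hcon
  have hcon' : ∀ k ∈ κ, ∃ m ∈ s, t0 * k ∈ B m := by
    intro k hk
    by_contra hk2
    exact hcon ⟨k, hk, fun m hm hmem => hk2 ⟨m, hm, hmem⟩⟩
  let P : ι → Prop := fun m => ∃ k ∈ κ, t0 * k ∈ B m
  let g : ι → κ := fun m => if hm : P m then ⟨hm.choose, hm.choose_spec.1⟩ else 1
  have hg : ∀ m, P m → t0 * (g m : Γ) ∈ B m := by
    intro m hm
    have : g m = ⟨hm.choose, hm.choose_spec.1⟩ := dif_pos hm
    rw [this]
    exact hm.choose_spec.2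
  have hcov : ⋃ m ∈ s.filter P, g m • (((B m).subgroupOf κ : Subgroup κ) : Set κ) = univ := by
    rw [eq_univ_iff_forall]
    intro k
    obtain ⟨m, hm, hmem⟩ := hcon' k k.2
    have hP : P m := ⟨k, k.2, hmem⟩
    rw [mem_iUnion₂]
    refine ⟨m, Finset.mem_filter.2 ⟨hm, hP⟩, ?_⟩
    rw [mem_smul_set_iff_inv_smul_mem]
    change (g m)⁻¹ * k ∈ (B m).subgroupOf κ
    rw [Subgroup.mem_subgroupOf]
    have h1 := (B m).mul_mem ((B m).inv_mem (hg m hP)) hmem
    rw [mul_inv_rev, mul_assoc, inv_mul_cancel_left] at h1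
    exact h1
  obtain ⟨m, hm, hfi⟩ := Subgroup.exists_finiteIndex_of_leftCoset_cover hcov
  exact hfi.index_ne_zero (h m (Finset.mem_filter.1 hm).1)

theorem pf_PHA (hCOO : T_COO) (hTEK : T_TEK) (hTIJ : T_TIJ) (hLNK : T_LNK) (hCJH : T_CJH)
    (hHIC : T_HIC) (hCTB : T_CTB) (hIRG : T_IRG) (hBGA : T_BGA) : T_PHA := by
  intro M U G S _ _ _ _ n x hF hN ω hω E hE i j hi hj hij L
  classical
  haveI := hF.dg
  haveI := hF.ful
  obtain ⟨hctx, -, -⟩ := hHIC U x hF i hi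
  obtain ⟨hoX, -, -, -, hTD, hTc, hTH, hTo, hHX, -, -, hOX, -, -, -, -⟩ :=
    hCTB U hF.act _ _ _ _ _ hctx
  have hL := hLNK U hF.act _ _ _ _ _ hctx
  have hσ0 : Equiv.swap i j 0 = 0 := Equiv.swap_apply_of_ne_of_ne hi.symm hj.symm
  obtain ⟨w, hw⟩ : ∃ w, w = ω (Equiv.swap i j) := ⟨_, rfl⟩
  rw [← hw]
  have hwpm : Pm x w (Equiv.swap i j) := by rw [hw]; exact hω.pm _
  have hww : w * w = 1 := by rw [hw, ← map_mul, Equiv.swap_mul_self, map_one]
  have hwinv : w⁻¹ = w := inv_eq_of_mul_eq_one_left hww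
  have hw0 : w • x 0 = x 0 := by rw [hwpm 0, hσ0]
  have hww' : ∀ g : G, w * (w * g) = g := fun g => by rw [← mul_assoc, hww, one_mul]
  obtain ⟨-, hcT, -, -⟩ := hCJH U x hF w _ hwpm
  have hcj : ∀ (g : G) (B : Subgroup G), g ∈ cj w⁻¹ B ↔ w * g * w ∈ B := by
    intro g B
    rw [mem_cj, inv_inv, hwinv]
  have hcT' : ∀ t ∈ TT U G x 0, w * t * w ∈ TT U G x 0 := by
    intro t ht
    have h0 := hcT 0
    rw [hσ0] at h0
    rw [← h0] at ht
    exact (hcj t (TT U G x 0)).1 ht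
  have hTIJ2 : ∀ i' j', i' ≠ 0 → j' ≠ 0 → i' ≠ j' →
      cj w⁻¹ (kap (TT U G x 0) (E i' j')) = kap (TT U G x 0) (E (Equiv.swap i j i') (Equiv.swap i j j')) := by
    intro i' j' h1 h2 h3
    exact ((hTIJ U x hF hN ω hω E hE).2 w _ hwpm hσ0 i' j' h1 h2 h3).2
  -- the multiplier
  obtain ⟨a, ha⟩ : ∃ a : G → L.K, ∀ t, a t = L.f (t • x 0) := ⟨fun t => L.f (t • x 0), fun _ => rfl⟩
  obtain ⟨hLa, hLb, hLc, -, -, -, -, hLe, hLf⟩ := hL (E i j) L
  have haone : a 1 = 1 := by rw [ha, one_smul, L.line.f1]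
  have hane : ∀ t ∈ TT U G x 0, a t ≠ 0 := fun t ht => by rw [ha]; exact (hLa t ht).1
  have hamul : ∀ s ∈ TT U G x 0, ∀ t ∈ TT U G x 0, a (s * t) = a s * a t := by
    intro s hs t ht
    rw [ha, ha, ha, mul_smul, (hLa s hs).2 _ (hOX ⟨t, ht, rfl⟩)]
  have haker : ∀ t, t ∈ kap (TT U G x 0) (E i j) ↔ t ∈ TT U G x 0 ∧ a t = 1 := by
    intro t
    rw [ha]
    exact hLc t
  obtain ⟨b, hb⟩ : ∃ b : G → L.K, ∀ t, b t = a (w * t * w) := ⟨fun t => a (w * t * w), fun _ => rfl⟩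
  have hbmul : ∀ s ∈ TT U G x 0, ∀ t ∈ TT U G x 0, b (s * t) = b s * b t := by
    intro s hs t ht
    rw [hb, hb, hb, ← hamul _ (hcT' s hs) _ (hcT' t ht)]
    congr 1
    simp only [mul_assoc, hww']
  have hbker : ∀ t ∈ TT U G x 0, a t = 1 → b t = 1 := by
    intro t ht h1
    have h2 : t ∈ cj w⁻¹ (kap (TT U G x 0) (E i j)) := by
      rw [hTIJ2 i j hi hj hij, Equiv.swap_apply_left, Equiv.swap_apply_right]
      have h3 := hE.sym i j hi hj hij
      rw [← h3]
      exact (haker t).2 ⟨ht, h1⟩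
    rw [hb]
    exact ((haker _).1 ((hcj _ _).1 h2)).2
  have hwd : ∀ s ∈ TT U G x 0, ∀ t ∈ TT U G x 0, a s = a t → b s = b t := by
    intro s hs t ht hst
    have hm : s⁻¹ * t ∈ TT U G x 0 := (TT U G x 0).mul_mem ((TT U G x 0).inv_mem hs) ht
    have h1 : a s * a (s⁻¹ * t) = a s * 1 := by
      rw [← hamul s hs _ hm, mul_inv_cancel_left, mul_one, hst]
    have h2 := mul_left_cancel₀ (hane s hs) h1
    have h3 := hbker _ hm h2
    have h4 := hbmul s hs _ hm
    rw [mul_inv_cancel_left, h3, mul_one] at h4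
    exact h4.symm
  have hsur : ∀ u : L.Kˣ, ∃ t ∈ TT U G x 0, a t = u := by
    intro u
    obtain ⟨t, ht, h⟩ := hLb u u.ne_zero
    exact ⟨t, ht, by rw [ha]; exact h⟩
  choose τ hτT hτa using hsur
  have hbne : ∀ t ∈ TT U G x 0, b t ≠ 0 := fun t ht => by rw [hb]; exact hane _ (hcT' t ht)
  let φ : L.Kˣ →* L.Kˣ :=
    { toFun := fun u => Units.mk0 (b (τ u)) (hbne _ (hτT u))
      map_one' := by
        apply Units.ext
        exact hbker _ (hτT 1) (hτa 1)
      map_mul' := by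
        intro u v
        apply Units.ext
        change b (τ (u * v)) = b (τ u) * b (τ v)
        rw [← hbmul _ (hτT u) _ (hτT v)]
        refine hwd _ (hτT _) _ ((TT U G x 0).mul_mem (hτT u) (hτT v)) ?_
        rw [hamul _ (hτT u) _ (hτT v), hτa, hτa, hτa, Units.val_mul] }
  have hφ : ∀ t ∈ TT U G x 0, ∀ u : L.Kˣ, a t = u → b t = (φ u : L.K) := by
    intro t ht u htu
    exact hwd t ht _ (hτT u) (htu.trans (hτa u).symm)
  have hws : ∀ t : G, w • (t • x 0) = (w * t * w) • x 0 := by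
    intro t
    rw [mul_smul, mul_smul, hw0]
  have hpart2 : ∀ y ∈ Orb (TT U G x 0) (x 0), w • y ∈ Orb (TT U G x 0) (x 0) ∧
      ∀ u : L.Kˣ, L.f y = u → L.f (w • y) = φ u := by
    rintro y ⟨t, ht, rfl⟩
    refine ⟨⟨w * t * w, hcT' t ht, hws t⟩, ?_⟩
    intro u hu
    rw [hws, ← ha, ← hb]
    exact hφ t ht u (by rw [ha]; exact hu)
  refine ⟨φ, ?_, hpart2, ?_⟩
  · intro u
    apply Units.ext
    have h1 := hφ (w * τ u * w) (hcT' _ (hτT u)) (φ u) (hb _).symm
    rw [← h1, hb, ← hτa u]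
    congr 1
    rw [mul_assoc w (τ u) w, hww', mul_assoc, hww, mul_one]
  · intro u v w' hv hw'
    -- the transposition of `0` and `i`
    obtain ⟨w0, hw0def⟩ : ∃ w0, w0 = ω (Equiv.swap 0 i) := ⟨_, rfl⟩
    have hw0H : w0 ∈ HH U G x 0 i := by rw [hw0def]; exact hω.mem 0 i hi.symm
    have hw0pm : Pm x w0 (Equiv.swap 0 i) := by rw [hw0def]; exact hω.pm _
    have hw0a : w0 • x i = x 0 := by rw [hw0pm i, Equiv.swap_apply_right]
    have hw0b : w0 • x 0 = x i := by rw [hw0pm 0, Equiv.swap_apply_left]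
    have hκT : ∀ t ∈ kap (TT U G x 0) (E i j), t ∈ TT U G x 0 := fun t ht => ((haker t).1 ht).1
    -- the kernels
    have hdata : ∀ l m, l ≠ 0 → m ≠ 0 → l ≠ m → Conn U (kap (TT U G x 0) (E l m)) ∧
        U.R (kap (TT U G x 0) (E l m) : Set G) + 1 = n := by
      intro l m hl hm hlm
      have h1 := ((hTEK U x hF hN l hl).1 (E l m) (hE.mem l m hl hm hlm)).2.2.2.1
      have h2 := hN.rkE l hl (E l m) (hE.mem l m hl hm hlm)
      exact ⟨h1, h2⟩
    have hB : ∀ l m, l ≠ 0 → m ≠ 0 → l ≠ m → i ≠ m → j ≠ m →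
        (kap (TT U G x 0) (E l m)).relIndex (kap (TT U G x 0) (E i j)) = 0 := by
      intro l m hl hm hlm him hjm
      by_contra hne
      obtain ⟨hc0, hr0⟩ := hdata i j hi hj hij
      obtain ⟨hc1, hr1⟩ := hdata l m hl hm hlm
      have hD : U.D ((kap (TT U G x 0) (E l m) ⊓ kap (TT U G x 0) (E i j) : Subgroup G) : Set G) := by
        rw [Subgroup.coe_inf]
        exact D_inter hc1.1 hc0.1
      have h1 : (kap (TT U G x 0) (E l m) ⊓ kap (TT U G x 0) (E i j)).relIndex (kap (TT U G x 0) (E i j)) ≠ 0 := by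
        rwa [Subgroup.inf_relIndex_right]
      have h2 := (l_GRA U _ _ hc0.1 hD inf_le_right).1 h1
      have h3 := hc0.2 _ inf_le_right hD h2
      have h4 : kap (TT U G x 0) (E i j) ≤ kap (TT U G x 0) (E l m) := by
        rw [← h3]
        exact inf_le_left
      have h5 := hc1.2 _ h4 hc0.1 (by omega)
      rcases hE.dis i j l m hi hj hij hl hm hlm h5 with h | h
      · exact hjm h.2
      · exact him h.1
    let s : Finset (Fin (n + 2) × Bool) :=
      Finset.univ.filter fun p => p.1 ≠ 0 ∧ i ≠ p.1 ∧ j ≠ p.1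
    obtain ⟨k, hk, hks⟩ := pha_avoid (kap (TT U G x 0) (E i j)) s
      (fun p => kap (TT U G x 0) (E (if p.2 then i else j) p.1)) (τ u) (by
        rintro ⟨m, c⟩ hm
        obtain ⟨-, h0, h1, h2⟩ := Finset.mem_filter.1 hm
        cases c with
        | true => exact hB i m hi h0 h1 h1 h2
        | false => exact hB j m hj h0 h2 h1 h2)
    obtain ⟨t, htdef⟩ : ∃ t, t = τ u * k := ⟨_, rfl⟩
    rw [← htdef] at hks
    have hkT : k ∈ TT U G x 0 := hκT k hk
    have htT : t ∈ TT U G x 0 := by rw [htdef]; exact (TT U G x 0).mul_mem (hτT u) hkT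
    have hat : a t = u := by
      rw [htdef, hamul _ (hτT u) _ hkT, ((haker k).1 hk).2, mul_one, hτa]
    have hbt : b t = (φ u : L.K) := hφ t htT u hat
    -- membership in the orbit
    let Lf : ∀ F ∈ LL U G x i, LF U G x i F := fun F h => Classical.choice h
    have hcoo := (hCOO U x hF hN i hi Lf).2.2.2
    have hkey : ∀ s' ∈ TT U G x 0, a s' ≠ 1 → (∀ m, m ≠ 0 → i ≠ m → j ≠ m → s' ∉ kap (TT U G x 0) (E i m)) →
        w0 • (s' • x 0) ∈ Orb (TT U G x 0) (x 0) := by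
      intro s' hs' h1 h2
      have hsX : s' • x 0 ∈ XX U G x i := hOX ⟨s', hs', rfl⟩
      refine (hcoo _).2 ⟨hHX w0 hw0H _ hsX, ?_⟩
      intro F hFm h0
      obtain ⟨m, hm0, him, rfl⟩ := hE.all i hi F hFm
      obtain ⟨-, -, hkm, -, -, -, -, -, hsw⟩ := hL (E i m) (Lf (E i m) hFm)
      rw [hsw w0 hw0H hw0a hw0b _ hsX] at h0
      have h3 : s' ∈ kap (TT U G x 0) (E i m) := (hkm s').2 ⟨hs', (sub_eq_zero.1 h0).symm⟩
      by_cases hjm : j = m
      · subst hjm
        exact h1 ((haker s').1 h3).2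
      · exact h2 m hm0 him hjm h3
    have hy0 : w0 • (t • x 0) ∈ Orb (TT U G x 0) (x 0) := by
      refine hkey t htT ?_ ?_
      · rw [hat]
        intro h
        rw [h, sub_self] at hw'
        exact w'.ne_zero hw'
      · intro m h0 h1 h2
        exact hks (m, true) (Finset.mem_filter.2 ⟨Finset.mem_univ _, h0, h1, h2⟩)
    have hy1 : w0 • ((w * t * w) • x 0) ∈ Orb (TT U G x 0) (x 0) := by
      refine hkey _ (hcT' t htT) ?_ ?_
      · rw [← hb, hbt]
        intro h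
        rw [h, sub_self] at hv
        exact v.ne_zero hv
      · intro m h0 h1 h2 h3
        have h4 := (hcj t _).2 h3
        rw [hTIJ2 i m hi h0 h1, Equiv.swap_apply_left,
          Equiv.swap_apply_of_ne_of_ne h1.symm h2.symm] at h4
        exact hks (m, false) (Finset.mem_filter.2 ⟨Finset.mem_univ _, h0, h1, h2⟩) h4
    have hfl : ∀ z ∈ XX U G x i, L.f (w0 • z) = 1 - L.f z := hLf w0 hw0H hw0a hw0b
    have e1 : L.f (w • (w0 • ((w * t * w) • x 0))) = φ v := by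
      refine (hpart2 _ hy1).2 v ?_
      rw [hfl _ (hOX ⟨_, hcT' t htT, rfl⟩), ← ha, ← hb, hbt, hv]
    have e2 : L.f (w • (w0 • (t • x 0))) = φ w' := by
      refine (hpart2 _ hy0).2 w' ?_
      rw [hfl _ (hOX ⟨_, htT, rfl⟩), ← ha, hat, hw']
    have e3 : L.f (w0 • (w • (w0 • (t • x 0)))) = 1 - (φ w' : L.K) := by
      rw [hfl _ (hOX (hpart2 _ hy0).1), e2]
    have hbraid : w * (w0 * w) = w0 * (w * w0) := by
      rw [hw, hw0def, ← map_mul, ← map_mul, ← map_mul, ← map_mul]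
      congr 1
      have p1 : Equiv.swap i j * (Equiv.swap 0 i * Equiv.swap i j) = Equiv.swap j 0 := by
        rw [← mul_assoc]
        exact Equiv.swap_mul_swap_mul_swap hi.symm hj.symm
      have p2 : Equiv.swap 0 i * (Equiv.swap i j * Equiv.swap 0 i) = Equiv.swap 0 j := by
        rw [← mul_assoc, Equiv.swap_comm 0 i, Equiv.swap_comm i j]
        exact Equiv.swap_mul_swap_mul_swap hij.symm hj
      rw [p1, p2, Equiv.swap_comm]
    have e4 : w • (w0 • ((w * t * w) • x 0)) = w0 • (w • (w0 • (t • x 0))) := by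
      rw [← hws]
      have e5 : w • (w0 • (w • (t • x 0))) = (w * (w0 * w)) • (t • x 0) := by
        simp only [mul_smul]
      rw [e5, hbraid]
      simp only [mul_smul]
    rw [← e1, ← e3, e4]

end Pool.Agent.H69.S
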